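import Pool.Agent.J4.H52.LightFaces.Cycles

/-! Basic facts on plane graphs of minimum degree at least five. -/

namespace Pool.J4.H52.LightFaces

open Function Finset SimpleGraph

namespace PlaneGraph

variable (P : PlaneGraph)

instance : Finite P.V := P.finite
instance : Nonempty P.V := P.nonempty
instance : Finite P.Face := P.finite_face
noncomputable instance : Fintype P.V := Fintype.ofFinite _
noncomputable instance : Fintype P.Face := Fintype.ofFinite _
noncomputable instance : DecidableEq P.V := Classical.decEq _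
noncomputable instance : DecidableEq P.Face := Classical.decEq _
noncomputable instance : DecidableRel P.G.Adj := Classical.decRel _
noncomputable instance : DecidableEq P.G.Dart := Classical.decEq _

/-- The face to the side of `d` is a triangle as a boundary walk. -/
def Tr (d : P.G.Dart) : Prop := P.bd (P.bd (P.bd d)) = d

noncomputable instance : DecidablePred P.Tr := Classical.decPred _

lemma bd_apply (d : P.G.Dart) : P.bd d = P.rot d.symm := rfl

@[simp] lemma bd_symm (d : P.G.Dart) : P.bd d.symm = P.rot d := by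
  rw [bd_apply, Dart.symm_symm]

@[simp] lemma bd_fst (d : P.G.Dart) : (P.bd d).fst = d.snd := by
  rw [bd_apply, P.rot_fst]; rfl

lemma deg_eq (v : P.V) : P.deg v = P.G.degree v := by
  unfold deg
  rw [← SimpleGraph.card_neighborSet_eq_degree, Set.ncard_eq_toFinset_card', Set.toFinset_card]

lemma card_darts_at (v : P.V) : (univ.filter (fun d : P.G.Dart => d.fst = v)).card = P.deg v := by
  rw [deg_eq]; exact P.G.dart_fst_fiber_card_eq_degree v

lemma mem_at_iff (d e : P.G.Dart) : d.fst = e.fst ↔ P.rot.SameCycle d e := by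
  constructor
  · exact P.rot_cycle d e
  · intro h
    obtain ⟨n, hn⟩ := h.exists_nat_pow_eq
    have key : ∀ n : ℕ, ((P.rot ^ n) d).fst = d.fst := by
      intro n
      induction n with
      | zero => rfl
      | succ n ih => rw [pow_succ', Equiv.Perm.mul_apply, P.rot_fst, ih]
    rw [← hn, key]

lemma minimalPeriod_rot (d : P.G.Dart) : minimalPeriod P.rot d = P.deg d.fst := by
  rw [← card_darts_at]
  refine (card_cycle P.rot d _ ?_).symm
  intro y
  simp only [mem_filter, mem_univ, true_and]
  rw [← mem_at_iff]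
  exact ⟨fun h => h.symm, fun h => h.symm⟩

lemma sum_at {M : Type*} [AddCommMonoid M] (d : P.G.Dart) (F : P.G.Dart → M) :
    ∑ e ∈ univ.filter (fun e : P.G.Dart => e.fst = d.fst), F e =
      ∑ i ∈ range (P.deg d.fst), F (P.rot^[i] d) := by
  rw [← minimalPeriod_rot]
  apply sum_cycle
  intro y
  simp only [mem_filter, mem_univ, true_and]
  rw [← mem_at_iff]
  exact ⟨fun h => h.symm, fun h => h.symm⟩

lemma iterate_deg (d : P.G.Dart) : P.rot^[P.deg d.fst] d = d := by
  rw [← minimalPeriod_rot]
  exact iterate_minimalPeriod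

variable {P}

lemma bd_ne (d : P.G.Dart) : P.bd d ≠ d := by
  intro h
  have h1 := P.bd_fst d
  rw [h] at h1
  exact d.adj.ne h1

lemma bd_bd_ne (hP : P.MinDegFive) (d : P.G.Dart) : P.bd (P.bd d) ≠ d := by
  intro h
  have h1 : (P.bd d).snd = d.fst := by
    rw [← P.bd_fst (P.bd d), h]
  have h2 : P.bd d = d.symm := by
    apply Dart.ext
    apply Prod.ext
    · exact P.bd_fst d
    · exact h1
  rw [bd_apply] at h2
  have h3 : minimalPeriod P.rot d.symm = 1 := by
    rw [minimalPeriod_eq_one_iff_isFixedPt]; exact h2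
  rw [minimalPeriod_rot] at h3
  have := hP d.symm.fst
  omega

/-- The length of the boundary walk through `d`. -/
noncomputable def len (P : PlaneGraph) (d : P.G.Dart) : ℕ := minimalPeriod P.bd d

lemma len_pos (d : P.G.Dart) : 0 < P.len d := minimalPeriod_pos' _ _

lemma bd_iterate_len (d : P.G.Dart) : P.bd^[P.len d] d = d := iterate_minimalPeriod

lemma three_le_len (hP : P.MinDegFive) (d : P.G.Dart) : 3 ≤ P.len d := by
  have h0 := len_pos d
  have h := bd_iterate_len d
  by_contra hlt
  have : P.len d = 1 ∨ P.len d = 2 := by omega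
  rcases this with h1 | h1
  · rw [h1] at h; exact bd_ne d h
  · rw [h1] at h; exact bd_bd_ne hP d h

lemma len_eq_three_iff (hP : P.MinDegFive) (d : P.G.Dart) : P.len d = 3 ↔ P.Tr d := by
  constructor
  · intro h
    have := bd_iterate_len d
    rw [h] at this
    exact this
  · intro h
    have hdvd : P.len d ∣ 3 := by
      apply IsPeriodicPt.minimalPeriod_dvd
      exact h
    have h3 := three_le_len hP d
    have := Nat.le_of_dvd (by norm_num) hdvd
    omega

lemma tr_bd_iff (d : P.G.Dart) : P.Tr (P.bd d) ↔ P.Tr d := by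
  unfold Tr
  exact P.bd.injective.eq_iff

lemma tr_symm_iff (d : P.G.Dart) : P.Tr d.symm ↔ P.Tr (P.rot d) := by
  rw [← bd_symm, tr_bd_iff]

/-- the third vertex of the face, if that face is triangular -/
noncomputable def third (P : PlaneGraph) (d : P.G.Dart) : P.V := (P.bd d).snd

lemma third_symm (d : P.G.Dart) : P.third d.symm = (P.rot d).snd := by
  unfold third; rw [bd_symm]

lemma third_rot (d : P.G.Dart) (h : P.Tr (P.rot d)) : P.third (P.rot d) = d.snd := by
  -- `rot d = bd d.symm`
  have h1 : P.Tr d.symm := (tr_symm_iff d).mpr h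
  unfold Tr at h1
  rw [bd_symm] at h1
  unfold third
  rw [← P.bd_fst (P.bd (P.rot d)), h1]
  rfl

lemma third_eq (d : P.G.Dart) : P.third d = (P.bd (P.bd d)).fst := by
  unfold third; rw [bd_fst]

lemma bd_bd_snd (d : P.G.Dart) (h : P.Tr d) : (P.bd (P.bd d)).snd = d.fst := by
  rw [← P.bd_fst (P.bd (P.bd d)), h]

/-- Euler's formula for the components in terms of darts. -/
lemma euler_darts (hP : P.MinDegFive) :
    (144 : ℚ) * Nat.card P.G.ConnectedComponent =
      ∑ d : P.G.Dart, ((72 : ℚ) / P.deg d.fst - 36 + 72 / P.len d) := by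
  have h1 : (Nat.card P.V : ℚ) = ∑ d : P.G.Dart, (1 : ℚ) / P.deg d.fst := by
    rw [← Finset.sum_fiberwise (s := univ) (g := fun d : P.G.Dart => d.fst)]
    rw [Nat.card_eq_fintype_card, Fintype.card, Finset.card_eq_sum_ones, Nat.cast_sum]
    refine Finset.sum_congr rfl fun v _ => ?_
    rw [Finset.sum_congr rfl (g := fun _ => (1 : ℚ) / P.deg v)]
    · rw [Finset.sum_const, card_darts_at, nsmul_eq_mul]
      have := hP v
      have h' : (P.deg v : ℚ) ≠ 0 := by
        have : 0 < P.deg v := by omega
        positivity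
      field_simp; simp
    · intro d hd
      simp only [mem_filter, mem_univ, true_and] at hd
      rw [hd]
  have h2 : (P.G.edgeSet.ncard : ℚ) = ∑ d : P.G.Dart, (1 : ℚ) / 2 := by
    rw [Finset.sum_const, nsmul_eq_mul]
    have := P.G.dart_card_eq_twice_card_edges
    rw [Fintype.card] at this
    rw [this]
    have h3 : P.G.edgeSet.ncard = P.G.edgeFinset.card := by
      rw [Set.ncard_eq_toFinset_card']
      rfl
    rw [h3]
    push_cast
    ring
  have h3 : (numCycles (bdPerm P.rot) : ℚ) = ∑ d : P.G.Dart, (1 : ℚ) / P.len d :=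
    numCycles_eq_sum _
  have h4 := P.euler_components
  have h5 : (Nat.card P.V : ℚ) + numCycles (bdPerm P.rot) =
      P.G.edgeSet.ncard + 2 * Nat.card P.G.ConnectedComponent := by exact_mod_cast h4
  have h6 : (144 : ℚ) * Nat.card P.G.ConnectedComponent =
      72 * Nat.card P.V + 72 * numCycles (bdPerm P.rot) - 72 * P.G.edgeSet.ncard := by
    linarith
  rw [h6, h1, h2, h3, Finset.mul_sum, Finset.mul_sum, Finset.mul_sum, ← Finset.sum_add_distrib,
    ← Finset.sum_sub_distrib]
  refine Finset.sum_congr rfl fun d _ => ?_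
  ring

end PlaneGraph

end Pool.J4.H52.LightFaces
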