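import Mathlib

/-! The two finite checks (all prices are in units of one half). Degrees are coded as
`0,1,2,3` for `5,6,7,≥8`. -/

namespace Pool.J4.H52.LightFaces

/-- twice the price of a triangular corner at a vertex of degree five -/
def w2 (b c : ℕ) : ℕ :=
  bif (b == 0) && (c == 0) then 12 else
  bif ((b == 0) && (c == 1)) || ((b == 1) && (c == 0)) then 9 else
  bif (b == 1) && (c == 1) then 8 else 0

/-- twice the price paid by the neighbour -/
def p2 (b : ℕ) (x y : Bool) : ℕ :=
  bif b == 2 then (bif x && y then 13 else bif x || y then 9 else 8) else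
  bif b == 3 then (bif x && y then 6 else bif x || y then 9 else 12) else 0

/-- twice the income over the edge to the neighbour coded `b`, with previous neighbour `a` and
next neighbour `c`; `s`, `t` tell whether the faces before and after the edge are triangular -/
def inc (a b c : ℕ) (s t : Bool) : ℕ :=
  (bif s then w2 b a else 12) + p2 b (s && (a == 0)) (t && (c == 0))

theorem check5 : ∀ g0 g1 g2 g3 g4 : Fin 4, ∀ t0 t1 t2 t3 t4 : Bool,
    Nat.ble 24 (inc g4 g0 g1 t0 t1 + inc g0 g1 g2 t1 t2 + inc g1 g2 g3 t2 t3 + inc g2 g3 g4 t3 t4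
      + inc g3 g4 g0 t4 t0) = true := by
  decide +kernel

/-- twice (payment - income) of a vertex of degree seven over an edge -/
def pay (a b c : Bool) (s t : Bool) : ℕ :=
  bif b then (bif (s && a) && (t && c) then 13 else bif (s && a) || (t && c) then 9 else 8) else 0

def got (a b : Bool) (s : Bool) : ℕ :=
  bif s then (bif a && b then 10 else 0) else 12

theorem check7 : ∀ g0 g1 g2 g3 g4 g5 g6 : Bool, ∀ t0 t1 t2 t3 t4 t5 t6 : Bool,
    Nat.ble (pay g6 g0 g1 t0 t1 + pay g0 g1 g2 t1 t2 + pay g1 g2 g3 t2 t3 + pay g2 g3 g4 t3 t4 +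
      pay g3 g4 g5 t4 t5 + pay g4 g5 g6 t5 t6 + pay g5 g6 g0 t6 t0)
      (24 + (got g6 g0 t0 + got g0 g1 t1 + got g1 g2 t2 + got g2 g3 t3 + got g3 g4 t4 +
        got g4 g5 t5 + got g5 g6 t6)) = true := by
  decide +kernel

end Pool.J4.H52.LightFaces
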