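import Pool.Agent.J4.H52.LightFaces.Defs

/-! General facts on sums over the cycles of a permutation. -/

namespace Pool.J4.H52.LightFaces

open Function Finset

section
variable {α : Type} [Fintype α]

lemma isPeriodicPt_perm (f : Equiv.Perm α) (x : α) :
    x ∈ periodicPts f := by
  have h := isOfFinOrder_of_finite f
  obtain ⟨n, hn, hp⟩ := isOfFinOrder_iff_pow_eq_one.mp h
  refine ⟨n, hn, ?_⟩
  show f^[n] x = x
  rw [Equiv.Perm.iterate_eq_pow, hp]; rfl

lemma minimalPeriod_pos' (f : Equiv.Perm α) (x : α) : 0 < minimalPeriod f x :=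
  minimalPeriod_pos_of_mem_periodicPts (isPeriodicPt_perm f x)

lemma sameCycle_iff_iterate (f : Equiv.Perm α) (x y : α) :
    f.SameCycle x y ↔ ∃ i < minimalPeriod f x, f^[i] x = y := by
  classical
  constructor
  · intro h
    obtain ⟨n, hn⟩ := h.exists_nat_pow_eq
    refine ⟨n % minimalPeriod f x, Nat.mod_lt _ (minimalPeriod_pos' f x), ?_⟩
    rw [iterate_mod_minimalPeriod_eq, Equiv.Perm.iterate_eq_pow]; exact hn
  · rintro ⟨i, _, hi⟩
    exact ⟨i, by rw [← hi, Equiv.Perm.iterate_eq_pow]; rfl⟩

/-- The sum over the cycle of `x` is the sum over the iterates. -/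
lemma sum_cycle {M : Type*} [AddCommMonoid M] (f : Equiv.Perm α) (x : α) (S : Finset α)
    (hS : ∀ y, y ∈ S ↔ f.SameCycle x y) (F : α → M) :
    ∑ y ∈ S, F y = ∑ i ∈ range (minimalPeriod f x), F (f^[i] x) := by
  classical
  have himg : S = (range (minimalPeriod f x)).image (fun i => f^[i] x) := by
    ext y
    rw [hS, sameCycle_iff_iterate]
    simp only [mem_image, mem_range]
  rw [himg, sum_image]
  intro i hi j hj h
  exact iterate_injOn_Iio_minimalPeriod (by simpa using hi) (by simpa using hj) h

lemma card_cycle (f : Equiv.Perm α) (x : α) (S : Finset α)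
    (hS : ∀ y, y ∈ S ↔ f.SameCycle x y) : S.card = minimalPeriod f x := by
  have := sum_cycle f x S hS (fun _ => 1)
  simpa using this

lemma minimalPeriod_eq_of_sameCycle (f : Equiv.Perm α) {x y : α} (h : f.SameCycle x y) :
    minimalPeriod f y = minimalPeriod f x := by
  classical
  have h1 := card_cycle f x (univ.filter (fun z => f.SameCycle x z)) (by simp)
  have h2 := card_cycle f y (univ.filter (fun z => f.SameCycle y z)) (by simp)
  rw [← h1, ← h2]
  congr 1
  ext z
  simp only [mem_filter, mem_univ, true_and]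
  exact ⟨fun hz => h.trans hz, fun hz => h.symm.trans hz⟩

/-- The number of cycles is `∑ 1 / (length of the cycle of x)`. -/
lemma numCycles_eq_sum (f : Equiv.Perm α) :
    (numCycles f : ℚ) = ∑ x : α, (1 : ℚ) / minimalPeriod f x := by
  classical
  unfold numCycles
  let q : α → Quotient (Equiv.Perm.SameCycle.setoid f) := Quotient.mk _
  haveI : Fintype (Quotient (Equiv.Perm.SameCycle.setoid f)) := Fintype.ofFinite _
  rw [Nat.card_eq_fintype_card, ← Finset.sum_fiberwise (s := univ) (g := q)]
  rw [Fintype.card, Finset.card_eq_sum_ones, Nat.cast_sum]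
  refine Finset.sum_congr rfl fun c _ => ?_
  obtain ⟨x, rfl⟩ := Quotient.exists_rep c
  have hS : ∀ y, y ∈ univ.filter (fun y => q y = Quotient.mk _ x) ↔ f.SameCycle x y := by
    intro y
    simp only [mem_filter, mem_univ, true_and, q]
    rw [Quotient.eq]
    exact ⟨fun h => Equiv.Perm.SameCycle.symm h, fun h => Equiv.Perm.SameCycle.symm h⟩
  rw [Finset.sum_congr rfl (g := fun _ => (1 : ℚ) / minimalPeriod f x)]
  · rw [Finset.sum_const, card_cycle f x _ hS]
    have := minimalPeriod_pos' f x
    have h' : (minimalPeriod f x : ℚ) ≠ 0 := by positivity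
    rw [nsmul_eq_mul]; field_simp; simp
  · intro y hy
    rw [hS] at hy
    rw [minimalPeriod_eq_of_sameCycle f hy]

end

end Pool.J4.H52.LightFaces
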