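import Mathlib

/-!
# Finite simple plane graphs, described by rotation systems, and light triangular faces

A finite simple plane graph without isolated vertices is described by

* its underlying simple graph `G`;
* the rotation `rot`: it sends a dart (an edge with a direction) to the next dart, in the
  positive direction, around the same initial vertex; for each vertex the darts starting at it
  form one cycle of `rot`;
* its finite set `Face` of faces and the map `face` giving the face on a fixed side of a dart.
  Walking along a boundary component of a face means applying `bd d = rot d.symm`
  (go along `d`, then turn at its end vertex), so the connected parts of face boundaries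
  (boundary walks) are the cycles of `bd`, and `face` is constant on each of them.

The graph need not be connected, so a face may have several boundary walks.  Planarity is
expressed by Euler's formula, for the disjoint union of the components, each drawn on its own
sphere (`euler_components`: `v - e + (number of boundary walks) = 2 * components`), and for the
drawing itself (`euler`: `v - e + (number of faces) = 1 + components`), together with the fact
that one can go from every dart to every other one by moving inside components of the graph and
inside faces (`linked`).  Equivalently, the incidence graph between components and faces, whose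
edges are the boundary walks, is a tree.
-/

namespace Pool.J4.H52.LightFaces

open SimpleGraph

/-- The permutation (walk along the dart and turn at its end) of a rotation system. -/
def bdPerm {V : Type} {G : SimpleGraph V} (rot : Equiv.Perm G.Dart) : Equiv.Perm G.Dart :=
  (Dart.symm_involutive (G := G)).toPerm.trans rot

/-- The number of cycles (fixed points included) of a permutation. -/
noncomputable def numCycles {α : Type} (f : Equiv.Perm α) : ℕ :=
  Nat.card (Quotient (Equiv.Perm.SameCycle.setoid f))

/-- A finite simple plane graph (nonempty, without isolated vertices, possibly disconnected). -/
structure PlaneGraph where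
  /-- The vertices. -/
  V : Type
  finite : Finite V
  nonempty : Nonempty V
  /-- The underlying simple graph. -/
  G : SimpleGraph V
  /-- The next dart around the initial vertex. -/
  rot : Equiv.Perm G.Dart
  rot_fst : ∀ d : G.Dart, (rot d).fst = d.fst
  rot_cycle : ∀ d e : G.Dart, d.fst = e.fst → rot.SameCycle d e
  /-- The faces. -/
  Face : Type
  finite_face : Finite Face
  /-- The face on the chosen side of a dart. -/
  face : G.Dart → Face
  face_surjective : Function.Surjective face
  face_bd : ∀ d : G.Dart, face (bdPerm rot d) = face d
  euler_components :
    Nat.card V + numCycles (bdPerm rot) = G.edgeSet.ncard + 2 * Nat.card G.ConnectedComponent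
  euler : Nat.card V + Nat.card Face = G.edgeSet.ncard + 1 + Nat.card G.ConnectedComponent
  linked : ∀ d e : G.Dart,
    Relation.ReflTransGen (fun a b => G.Reachable a.fst b.fst ∨ face a = face b) d e

namespace PlaneGraph

variable (P : PlaneGraph)

/-- The degree of a vertex. -/
noncomputable def deg (v : P.V) : ℕ := (P.G.neighborSet v).ncard

/-- Walking along the boundary of a face. -/
def bd : Equiv.Perm P.G.Dart := bdPerm P.rot

/-- The face `x` is triangular and its vertices have degrees `i, j, k` (as a multiset): for some
dart `d` on its boundary, the whole boundary of `x` consists of the three darts `d`, `bd d` and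
`bd (bd d)`, where `bd (bd (bd d)) = d`, and their initial vertices have degrees `i, j, k`. -/
def IsTri (x : P.Face) (i j k : ℕ) : Prop :=
  ∃ d : P.G.Dart, P.bd (P.bd (P.bd d)) = d ∧
    (∀ e : P.G.Dart, P.face e = x ↔ e = d ∨ e = P.bd d ∨ e = P.bd (P.bd d)) ∧
    ({P.deg d.fst, P.deg (P.bd d).fst, P.deg (P.bd (P.bd d)).fst} : Multiset ℕ) = {i, j, k}

/-- `f_{i,j,k}`: the number of triangular faces whose vertices have degrees `i, j, k`. -/
noncomputable def f (i j k : ℕ) : ℕ := Nat.card {x : P.Face // P.IsTri x i j k}

/-- The inequality `(∗_c)`. -/
def Star (c : ℝ) : Prop :=
  144 ≤ 18 * (P.f 5 5 5 : ℝ) + 9 * (P.f 5 5 6 : ℝ) + c * (P.f 5 5 7 : ℝ) + 4 * (P.f 5 6 6 : ℝ)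

/-- Minimum degree at least five. -/
def MinDegFive : Prop := ∀ v : P.V, 5 ≤ P.deg v

end PlaneGraph

/-- The set of all `c ≥ 0` such that `(∗_c)` holds for every plane graph of minimum degree at
least five. -/
def admissible : Set ℝ := {c : ℝ | 0 ≤ c ∧ ∀ P : PlaneGraph, P.MinDegFive → P.Star c}

/-- The constant `c*`. -/
noncomputable def cStar : ℝ := sInf admissible

end Pool.J4.H52.LightFaces
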