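import Pool.Agent.J4.H52.LightFaces.Table
import Pool.Agent.J4.H52.LightFaces.Basic

/-! The plane graph given by the table. -/

namespace Pool.J4.H52.LightFaces

open Function Finset SimpleGraph

/-- The underlying graph. -/
def exG : SimpleGraph (Fin 114) where
  Adj a b := b ∈ nb a
  symm := ⟨fun a b h => nb_symm a b h⟩
  loopless := ⟨fun a h => nb_irrefl a h⟩

lemma exG_adj (a b : Fin 114) : exG.Adj a b ↔ b ∈ nb a := Iff.rfl

instance : DecidableRel exG.Adj := fun a b => inferInstanceAs (Decidable (b ∈ nb a))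

/-- The rotation. -/
def exRot : Equiv.Perm exG.Dart where
  toFun d := ⟨(d.fst, (nb d.fst).formPerm d.snd), List.formPerm_apply_mem_of_mem d.adj⟩
  invFun d := ⟨(d.fst, (nb d.fst).formPerm.symm d.snd), by
    show (nb d.fst).formPerm.symm d.snd ∈ nb d.fst
    rw [← List.formPerm_mem_iff_mem, Equiv.apply_symm_apply]
    exact d.adj⟩
  left_inv d := by
    apply Dart.ext
    apply Prod.ext
    · rfl
    · show (nb d.fst).formPerm.symm ((nb d.fst).formPerm d.snd) = d.snd
      rw [Equiv.symm_apply_apply]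
  right_inv d := by
    apply Dart.ext
    apply Prod.ext
    · rfl
    · show (nb d.fst).formPerm ((nb d.fst).formPerm.symm d.snd) = d.snd
      rw [Equiv.apply_symm_apply]

lemma exRot_fst (d : exG.Dart) : (exRot d).fst = d.fst := rfl

lemma exRot_snd (d : exG.Dart) : (exRot d).snd = nx d.fst d.snd := rfl

lemma exRot_pow (n : ℕ) (d : exG.Dart) :
    ((exRot ^ n) d).fst = d.fst ∧ ((exRot ^ n) d).snd = ((nb d.fst).formPerm ^ n) d.snd := by
  induction n with
  | zero => exact ⟨rfl, rfl⟩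
  | succ n ih =>
    rw [pow_succ', Equiv.Perm.mul_apply, pow_succ', Equiv.Perm.mul_apply, exRot_fst, exRot_snd,
      ih.1, ih.2]
    exact ⟨rfl, rfl⟩

lemma exRot_cycle (d e : exG.Dart) (h : d.fst = e.fst) : exRot.SameCycle d e := by
  have hn := nb_nodup d.fst
  have hl := nb_len d.fst
  have hd : d.snd ∈ nb d.fst := d.adj
  have he : e.snd ∈ nb d.fst := by rw [h]; exact e.adj
  have hc := (List.isCycle_formPerm hn (by omega)).sameCycle
    ((List.formPerm_apply_mem_ne_self_iff _ hn _ hd).mpr (by omega))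
    ((List.formPerm_apply_mem_ne_self_iff _ hn _ he).mpr (by omega))
  obtain ⟨n, hn'⟩ := hc.exists_nat_pow_eq
  refine ⟨n, ?_⟩
  rw [zpow_natCast]
  obtain ⟨h1, h2⟩ := exRot_pow n d
  apply Dart.ext
  apply Prod.ext
  · rw [h1, h]
  · rw [h2, hn']

lemma exbd_fst (d : exG.Dart) : (bdPerm exRot d).fst = d.snd := rfl

lemma exbd_snd (d : exG.Dart) : (bdPerm exRot d).snd = nx d.snd d.fst := rfl

lemma exbd2_snd (d : exG.Dart) : (bdPerm exRot (bdPerm exRot d)).snd = d.fst := by
  rw [exbd_snd, exbd_snd, exbd_fst]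
  exact nb_tri _ _ d.adj

lemma exbd3 (d : exG.Dart) : bdPerm exRot (bdPerm exRot (bdPerm exRot d)) = d := by
  apply Dart.ext
  apply Prod.ext
  · show (bdPerm exRot (bdPerm exRot (bdPerm exRot d))).fst = d.fst
    rw [exbd_fst, exbd2_snd]
  · exact exbd2_snd (bdPerm exRot d)

lemma ex_period (d : exG.Dart) : minimalPeriod (bdPerm exRot) d = 3 := by
  have hdvd : minimalPeriod (bdPerm exRot) d ∣ 3 := by
    apply IsPeriodicPt.minimalPeriod_dvd
    exact exbd3 d
  rcases (Nat.dvd_prime Nat.prime_three).mp hdvd with h | h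
  · rw [minimalPeriod_eq_one_iff_isFixedPt] at h
    exfalso
    have h1 := exbd_fst d
    have h2 : bdPerm exRot d = d := h
    rw [h2] at h1
    exact d.adj.ne h1
  · exact h

lemma ex_degree (a : Fin 114) : exG.degree a = (nb a).length := by
  rw [← List.toFinset_card_of_nodup (nb_nodup a), SimpleGraph.degree]
  congr 1
  ext b
  rw [mem_neighborFinset, List.mem_toFinset]
  rfl

lemma ex_ncard (a : Fin 114) : (exG.neighborSet a).ncard = (nb a).length := by
  rw [← ex_degree, ← SimpleGraph.card_neighborSet_eq_degree, Set.ncard_eq_toFinset_card',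
    Set.toFinset_card]

lemma ex_darts : Fintype.card exG.Dart = 672 := by
  rw [exG.dart_card_eq_sum_degrees, ← nb_sum]
  exact Finset.sum_congr rfl fun a _ => ex_degree a

lemma ex_edges : exG.edgeSet.ncard = 336 := by
  have h := exG.dart_card_eq_twice_card_edges
  rw [ex_darts] at h
  have h3 : exG.edgeSet.ncard = exG.edgeFinset.card := by
    rw [Set.ncard_eq_toFinset_card']
    rfl
  omega

lemma ex_cycles : numCycles (bdPerm exRot) = 224 := by
  have h := numCycles_eq_sum (bdPerm exRot)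
  rw [Finset.sum_congr rfl fun d _ => by rw [ex_period d], Finset.sum_const, card_univ, ex_darts,
    nsmul_eq_mul] at h
  have h2 : (numCycles (bdPerm exRot) : ℚ) = 224 := by rw [h]; norm_num
  exact_mod_cast h2

lemma ex_reach (a : Fin 114) : exG.Reachable a 0 := by
  have key : ∀ n : ℕ, ∀ a : Fin 114, a.val ≤ n → exG.Reachable a 0 := by
    intro n
    induction n with
    | zero =>
      intro a ha
      have : a = 0 := Fin.ext (by simpa using ha)
      rw [this]
    | succ n ih =>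
      intro a ha
      by_cases h0 : a.val = 0
      · have : a = 0 := Fin.ext (by simpa using h0)
        rw [this]
      · obtain ⟨b, hb, hlt⟩ := nb_conn a h0
        have h1 : exG.Adj a b := hb
        exact h1.reachable.trans (ih b (by omega))
  exact key a.val a le_rfl

lemma ex_pre : exG.Preconnected := fun a b => (ex_reach a).trans (ex_reach b).symm

lemma ex_comp : Nat.card exG.ConnectedComponent = 1 := by
  have := ex_pre.subsingleton_connectedComponent
  have : Nonempty exG.ConnectedComponent := ⟨exG.connectedComponentMk 0⟩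
  exact Nat.card_eq_one_iff_unique.mpr ⟨inferInstance, inferInstance⟩

/-- The plane graph. -/
def ex : PlaneGraph where
  V := Fin 114
  finite := inferInstance
  nonempty := inferInstance
  G := exG
  rot := exRot
  rot_fst := exRot_fst
  rot_cycle := exRot_cycle
  Face := Quotient (Equiv.Perm.SameCycle.setoid (bdPerm exRot))
  finite_face := inferInstance
  face := Quotient.mk _
  face_surjective := Quotient.mk_surjective
  face_bd := fun d => Quotient.sound (show (bdPerm exRot).SameCycle _ _ from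
    (Equiv.Perm.sameCycle_apply_left.mpr (Equiv.Perm.SameCycle.refl _ _)))
  euler_components := by
    rw [ex_cycles, ex_edges, ex_comp, Nat.card_eq_fintype_card, Fintype.card_fin]
  euler := by
    have h : Nat.card (Quotient (Equiv.Perm.SameCycle.setoid (bdPerm exRot))) = 224 := ex_cycles
    rw [h, ex_edges, ex_comp, Nat.card_eq_fintype_card, Fintype.card_fin]
  linked := fun d e => Relation.ReflTransGen.single (Or.inl (ex_pre _ _))

lemma ex_deg (a : Fin 114) : ex.deg a = (nb a).length := ex_ncard a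

lemma ex_min : ex.MinDegFive := fun a => (nb_len a).trans_eq (ex_deg a).symm

lemma ex_bd_fst (d : exG.Dart) : (ex.bd d).fst = d.snd := rfl

lemma ex_bd_bd_fst (d : exG.Dart) : (ex.bd (ex.bd d)).fst = nx d.snd d.fst := rfl

/-- The three degrees of a triangular face. -/
lemma ex_tri {x : ex.Face} {i j k : ℕ} (h : ex.IsTri x i j k) :
    ∃ d : exG.Dart, ex.face d = x ∧ ex.face (ex.bd d) = x ∧ ex.face (ex.bd (ex.bd d)) = x ∧
      ({(nb d.fst).length, (nb d.snd).length, (nb (nx d.snd d.fst)).length} : Multiset ℕ) =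
        {i, j, k} := by
  obtain ⟨d, _, h2, h3⟩ := h
  refine ⟨d, (h2 d).mpr (Or.inl rfl), (h2 _).mpr (Or.inr (Or.inl rfl)),
    (h2 _).mpr (Or.inr (Or.inr rfl)), ?_⟩
  rw [← ex_deg, ← ex_deg, ← ex_deg]
  exact h3

lemma ex_sum {x : ex.Face} {i j k : ℕ} (h : ex.IsTri x i j k) : 17 ≤ i + j + k := by
  obtain ⟨d, _, _, _, h⟩ := ex_tri h
  have h1 := congrArg Multiset.sum h
  simp only [Multiset.insert_eq_cons, Multiset.sum_cons, Multiset.sum_singleton] at h1
  have h2 := nb_light d.fst d.snd d.adj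
  omega

lemma ex_f555 : ex.f 5 5 5 = 0 := by
  unfold PlaneGraph.f
  rw [Nat.card_eq_zero]
  left
  exact ⟨fun x => by have := ex_sum x.2; omega⟩

lemma ex_f556 : ex.f 5 5 6 = 0 := by
  unfold PlaneGraph.f
  rw [Nat.card_eq_zero]
  left
  exact ⟨fun x => by have := ex_sum x.2; omega⟩

/-- Counting faces by one of their darts. -/
lemma card_le_list (p : ex.Face → Prop) (L : List (ℕ × ℕ))
    (h : ∀ x, p x → ∃ d : exG.Dart, ex.face d = x ∧ (d.fst.val, d.snd.val) ∈ L) :
    Nat.card {x : ex.Face // p x} ≤ L.length := by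
  classical
  choose g hg using h
  let F : {x : ex.Face // p x} → {q : ℕ × ℕ // q ∈ L.toFinset} := fun x =>
    ⟨((g x.1 x.2).fst.val, (g x.1 x.2).snd.val), List.mem_toFinset.mpr (hg x.1 x.2).2⟩
  have hF : Function.Injective F := by
    intro x y hxy
    have h1 : ((g x.1 x.2).fst.val, (g x.1 x.2).snd.val) =
        ((g y.1 y.2).fst.val, (g y.1 y.2).snd.val) :=
      congrArg Subtype.val hxy
    have h2 : g x.1 x.2 = g y.1 y.2 := by
      apply Dart.ext
      apply Prod.ext
      · exact Fin.ext (congrArg Prod.fst h1)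
      · exact Fin.ext (congrArg Prod.snd h1)
    apply Subtype.ext
    rw [← (hg x.1 x.2).1, ← (hg y.1 y.2).1, h2]
  have h3 := Nat.card_le_card_of_injective F hF
  rw [Nat.card_eq_fintype_card (α := {q : ℕ × ℕ // q ∈ L.toFinset}), Fintype.card_coe] at h3
  exact h3.trans (List.toFinset_card_le L)

lemma perm557 {a b c : ℕ} (h : ({a, b, c} : Multiset ℕ) = {5, 5, 7}) :
    (a = 7 ∧ b = 5 ∧ c = 5) ∨ (b = 7 ∧ c = 5 ∧ a = 5) ∨ (c = 7 ∧ a = 5 ∧ b = 5) := by
  have m : ∀ x ∈ ({a, b, c} : Multiset ℕ), x = 5 ∨ x = 7 := by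
    intro x hx; rw [h] at hx; simp at hx; exact hx
  have ha := m a (by simp)
  have hb := m b (by simp)
  have hc := m c (by simp)
  have hs := congrArg Multiset.sum h
  simp only [Multiset.insert_eq_cons, Multiset.sum_cons, Multiset.sum_singleton] at hs
  omega

lemma perm566 {a b c : ℕ} (h : ({a, b, c} : Multiset ℕ) = {5, 6, 6}) :
    (a = 5 ∧ b = 6 ∧ c = 6) ∨ (b = 5 ∧ c = 6 ∧ a = 6) ∨ (c = 5 ∧ a = 6 ∧ b = 6) := by
  have m : ∀ x ∈ ({a, b, c} : Multiset ℕ), x = 5 ∨ x = 6 := by
    intro x hx; rw [h] at hx; simp at hx; exact hx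
  have ha := m a (by simp)
  have hb := m b (by simp)
  have hc := m c (by simp)
  have hs := congrArg Multiset.sum h
  simp only [Multiset.insert_eq_cons, Multiset.sum_cons, Multiset.sum_singleton] at hs
  omega

lemma nx_nx (d : exG.Dart) : nx (nx d.snd d.fst) d.snd = d.fst := nb_tri _ _ d.adj

lemma nx_nx' (d : exG.Dart) : nx d.fst (nx d.snd d.fst) = d.snd := by
  have := nx_nx (bdPerm exRot d)
  rw [exbd_fst, exbd_snd, nx_nx] at this
  exact this

lemma ex_f557 : ex.f 5 5 7 ≤ 16 := by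
  refine (card_le_list _ L7 ?_).trans (by decide)
  intro x hx
  obtain ⟨d, h1, h2, h3, h⟩ := ex_tri hx
  rcases perm557 h with ⟨a, b, c⟩ | ⟨a, b, c⟩ | ⟨a, b, c⟩
  · exact ⟨d, h1, nb_L7 _ _ d.adj a b c⟩
  · refine ⟨bdPerm exRot d, h2, nb_L7 _ _ (bdPerm exRot d).adj a b ?_⟩
    rw [exbd_fst, exbd_snd, nx_nx]; exact c
  · refine ⟨bdPerm exRot (bdPerm exRot d), h3,
      nb_L7 _ _ (bdPerm exRot (bdPerm exRot d)).adj a ?_ ?_⟩
    · rw [exbd2_snd]; exact b
    · rw [exbd2_snd, exbd_fst, exbd_snd, nx_nx']; exact c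

lemma ex_f566 : ex.f 5 6 6 ≤ 16 := by
  refine (card_le_list _ L5 ?_).trans (by decide)
  intro x hx
  obtain ⟨d, h1, h2, h3, h⟩ := ex_tri hx
  rcases perm566 h with ⟨a, b, c⟩ | ⟨a, b, c⟩ | ⟨a, b, c⟩
  · exact ⟨d, h1, nb_L5 _ _ d.adj a b c⟩
  · refine ⟨bdPerm exRot d, h2, nb_L5 _ _ (bdPerm exRot d).adj a b ?_⟩
    rw [exbd_fst, exbd_snd, nx_nx]; exact c
  · refine ⟨bdPerm exRot (bdPerm exRot d), h3,
      nb_L5 _ _ (bdPerm exRot (bdPerm exRot d)).adj a ?_ ?_⟩
    · rw [exbd2_snd]; exact b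
    · rw [exbd2_snd, exbd_fst, exbd_snd, nx_nx']; exact c

/-- `(∗_c)` for the example forces `c ≥ 5`. -/
theorem five_le_of_star {c : ℝ} (h0 : 0 ≤ c) (h : ex.Star c) : 5 ≤ c := by
  unfold PlaneGraph.Star at h
  rw [ex_f555, ex_f556] at h
  have h1 : (ex.f 5 5 7 : ℝ) ≤ 16 := by exact_mod_cast ex_f557
  have h2 : (ex.f 5 6 6 : ℝ) ≤ 16 := by exact_mod_cast ex_f566
  have h3 : c * (ex.f 5 5 7 : ℝ) ≤ c * 16 := mul_le_mul_of_nonneg_left h1 h0
  push_cast at h
  linarith

end Pool.J4.H52.LightFaces
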