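import Pool.Agent.J4.H52.LightFaces.Basic
import Pool.Agent.J4.H52.LightFaces.Check

/-! The discharging inequality at each vertex (all charges are doubled). -/

namespace Pool.J4.H52.LightFaces

open Function Finset SimpleGraph

/-- code of a degree -/
def code (n : ℕ) : ℕ := min n 8 - 5

lemma code_lt (n : ℕ) : code n < 4 := by unfold code; omega

lemma code_zero {n : ℕ} (h : 5 ≤ n) : (code n == 0) = decide (n = 5) := by
  unfold code
  by_cases h5 : n = 5
  · subst h5; rfl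
  · have : min n 8 - 5 ≠ 0 := by omega
    simp [h5, this]

namespace PlaneGraph

variable (P : PlaneGraph)

noncomputable def T (d : P.G.Dart) : Bool := decide (P.Tr d)

noncomputable def c (d : P.G.Dart) : ℕ := code (P.deg d.snd)

noncomputable def side (d : P.G.Dart) : Bool := P.T d && (code (P.deg (P.third d)) == 0)

noncomputable def om2 (d : P.G.Dart) : ℕ :=
  bif P.T d then
    (if P.deg d.fst = 5 then w2 (P.c d) (code (P.deg (P.third d)))
      else if P.deg d.fst = 7 then (bif (P.c d == 0) && (code (P.deg (P.third d)) == 0) then 10 else 0)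
      else 0)
  else 0

noncomputable def pr2 (d : P.G.Dart) : ℕ :=
  if P.deg d.fst = 5 then p2 (P.c d) (P.side d) (P.side d.symm) else 0

noncomputable def nt (d : P.G.Dart) : ℕ := bif P.T d then 0 else 12

variable {P}

lemma T_symm (d : P.G.Dart) : P.T d.symm = P.T (P.rot d) := by
  unfold T
  exact decide_eq_decide.mpr (tr_symm_iff d)

lemma side_rot (d : P.G.Dart) : P.side (P.rot d) = (P.T (P.rot d) && (P.c d == 0)) := by
  unfold side
  by_cases h : P.Tr (P.rot d)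
  · rw [third_rot d h]; rfl
  · have : P.T (P.rot d) = false := by unfold T; simp [h]
    rw [this]; rfl

lemma side_symm (d : P.G.Dart) :
    P.side d.symm = (P.T (P.rot d) && (P.c (P.rot d) == 0)) := by
  unfold side
  rw [T_symm, third_symm]; rfl

lemma inc_eq (d : P.G.Dart) (h : P.deg d.fst = 5) :
    P.nt (P.rot d) + P.om2 (P.rot d) + P.pr2 (P.rot d) =
      inc (P.c d) (P.c (P.rot d)) (P.c (P.rot (P.rot d))) (P.T (P.rot d))
        (P.T (P.rot (P.rot d))) := by
  have h' : P.deg (P.rot d).fst = 5 := by rw [P.rot_fst, h]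
  unfold pr2 inc
  rw [if_pos h', side_rot, side_symm]
  congr 1
  unfold nt om2
  rw [if_pos h']
  by_cases hT : P.Tr (P.rot d)
  · have : P.T (P.rot d) = true := by unfold T; simp [hT]
    rw [this, third_rot d hT]
    simp only [cond_true, zero_add]
    rfl
  · have : P.T (P.rot d) = false := by unfold T; simp [hT]
    rw [this]; rfl

lemma pr2_symm_of_ne {d : P.G.Dart} (h : P.deg d.fst < 7) (h5 : 5 ≤ P.deg d.fst) :
    P.pr2 d.symm = 0 := by
  unfold pr2
  split_ifs with h1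
  · have : P.c d.symm = code (P.deg d.fst) := rfl
    rw [this]
    have : P.deg d.fst = 5 ∨ P.deg d.fst = 6 := by omega
    rcases this with h | h <;> rw [h] <;> rfl
  · rfl

lemma pr2_of_ne {d : P.G.Dart} (h : P.deg d.fst ≠ 5) : P.pr2 d = 0 := by
  unfold pr2; rw [if_neg h]

/-- The total doubled charge at a dart. -/
noncomputable def ch (P : PlaneGraph) (d : P.G.Dart) : ℚ :=
  (P.nt d : ℚ) + P.om2 d + P.pr2 d - P.pr2 d.symm

lemma exists_dart (hP : P.MinDegFive) (v : P.V) : ∃ d : P.G.Dart, d.fst = v := by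
  have h := P.card_darts_at v
  have h5 := hP v
  have : 0 < (univ.filter (fun d : P.G.Dart => d.fst = v)).card := by omega
  obtain ⟨d, hd⟩ := Finset.card_pos.mp this
  exact ⟨d, by simpa using hd⟩

lemma local5 (d : P.G.Dart) (h : P.deg d.fst = 5) :
    (24 : ℚ) ≤ ∑ e ∈ univ.filter (fun e : P.G.Dart => e.fst = d.fst), P.ch e := by
  rw [P.sum_at, h]
  have hcyc := P.iterate_deg d
  rw [h] at hcyc
  set d1 := P.rot d with hd1
  set d2 := P.rot d1 with hd2
  set d3 := P.rot d2 with hd3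
  set d4 := P.rot d3 with hd4
  have hd0 : P.rot d4 = d := hcyc
  have f1 : d1.fst = d.fst := P.rot_fst d
  have f2 : d2.fst = d.fst := (P.rot_fst d1).trans f1
  have f3 : d3.fst = d.fst := (P.rot_fst d2).trans f2
  have f4 : d4.fst = d.fst := (P.rot_fst d3).trans f3
  have key := check5 ⟨P.c d, code_lt _⟩ ⟨P.c d1, code_lt _⟩ ⟨P.c d2, code_lt _⟩
    ⟨P.c d3, code_lt _⟩ ⟨P.c d4, code_lt _⟩ (P.T d) (P.T d1) (P.T d2) (P.T d3) (P.T d4)
  simp only at key
  have e0 := inc_eq d4 (by rw [f4, h])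
  have e1 := inc_eq d h
  have e2 := inc_eq d1 (by rw [f1, h])
  have e3 := inc_eq d2 (by rw [f2, h])
  have e4 := inc_eq d3 (by rw [f3, h])
  rw [hd0] at e0
  rw [← hd1] at e0 e1
  rw [← hd2] at e1 e2
  rw [← hd3] at e2 e3
  rw [← hd4] at e3 e4
  rw [hd0] at e4
  rw [← e0, ← e1, ← e2, ← e3, ← e4] at key
  have key' := Nat.le_of_ble_eq_true key
  have z : ∀ e : P.G.Dart, e.fst = d.fst → P.pr2 e.symm = 0 := fun e he =>
    pr2_symm_of_ne (by rw [he, h]; norm_num) (by rw [he, h])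
  simp only [Finset.sum_range_succ, Finset.sum_range_zero, zero_add]
  show (24 : ℚ) ≤ P.ch d + P.ch d1 + P.ch d2 + P.ch d3 + P.ch d4
  unfold ch
  rw [z d rfl, z d1 f1, z d2 f2, z d3 f3, z d4 f4]
  have : (24 : ℚ) ≤ ((P.nt d + P.om2 d + P.pr2 d + (P.nt d1 + P.om2 d1 + P.pr2 d1) +
    (P.nt d2 + P.om2 d2 + P.pr2 d2) + (P.nt d3 + P.om2 d3 + P.pr2 d3) +
    (P.nt d4 + P.om2 d4 + P.pr2 d4) : ℕ) : ℚ) := by exact_mod_cast key'
  push_cast at this ⊢
  linarith

lemma local6 (d : P.G.Dart) (h : P.deg d.fst = 6) :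
    (0 : ℚ) ≤ ∑ e ∈ univ.filter (fun e : P.G.Dart => e.fst = d.fst), P.ch e := by
  refine Finset.sum_nonneg fun e he => ?_
  simp only [mem_filter, mem_univ, true_and] at he
  unfold ch
  rw [pr2_symm_of_ne (d := e) (by rw [he, h]; norm_num) (by rw [he, h]; norm_num)]
  simp only [Nat.cast_zero, sub_zero]
  positivity

/-- Is the end of the dart of degree five? -/
noncomputable def fv (P : PlaneGraph) (d : P.G.Dart) : Bool := P.c d == 0

lemma fv_iff (hP : P.MinDegFive) (d : P.G.Dart) : P.fv d = decide (P.deg d.snd = 5) := by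
  unfold fv c
  exact code_zero (hP _)

lemma pay_eq (hP : P.MinDegFive) (d : P.G.Dart) (h : P.deg d.fst = 7) :
    P.pr2 (P.rot d).symm = pay (P.fv d) (P.fv (P.rot d)) (P.fv (P.rot (P.rot d)))
      (P.T (P.rot d)) (P.T (P.rot (P.rot d))) := by
  have h' : P.deg (P.rot d).fst = 7 := by rw [P.rot_fst, h]
  unfold pr2 pay
  have e1 : (P.rot d).symm.fst = (P.rot d).snd := rfl
  have e2 : P.c (P.rot d).symm = 2 := by
    show code (P.deg (P.rot d).fst) = 2
    rw [h']; rfl
  rw [e1, e2, Dart.symm_symm, side_rot, side_symm, fv_iff hP (P.rot d)]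
  by_cases h5 : P.deg (P.rot d).snd = 5
  · rw [if_pos h5]
    simp only [h5, decide_true, cond_true]
    unfold fv p2
    cases P.T (P.rot d) <;> cases P.T (P.rot (P.rot d)) <;> cases (P.c d == 0) <;>
      cases (P.c (P.rot (P.rot d)) == 0) <;> rfl
  · rw [if_neg h5]
    simp [h5]

lemma got_eq (d : P.G.Dart) (h : P.deg d.fst = 7) :
    P.nt (P.rot d) + P.om2 (P.rot d) = got (P.fv d) (P.fv (P.rot d)) (P.T (P.rot d)) := by
  have h' : P.deg (P.rot d).fst = 7 := by rw [P.rot_fst, h]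
  unfold nt om2 got
  rw [if_neg (by rw [h']; norm_num), if_pos h']
  by_cases hT : P.Tr (P.rot d)
  · have : P.T (P.rot d) = true := by unfold T; simp [hT]
    rw [this, third_rot d hT]
    simp only [cond_true, zero_add]
    unfold fv c
    rw [Bool.and_comm]
  · have : P.T (P.rot d) = false := by unfold T; simp [hT]
    rw [this]; rfl

lemma local7 (hP : P.MinDegFive) (d : P.G.Dart) (h : P.deg d.fst = 7) :
    (-24 : ℚ) ≤ ∑ e ∈ univ.filter (fun e : P.G.Dart => e.fst = d.fst), P.ch e := by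
  rw [P.sum_at, h]
  have hcyc := P.iterate_deg d
  rw [h] at hcyc
  set d1 := P.rot d with hd1
  set d2 := P.rot d1 with hd2
  set d3 := P.rot d2 with hd3
  set d4 := P.rot d3 with hd4
  set d5 := P.rot d4 with hd5
  set d6 := P.rot d5 with hd6
  have hd0 : P.rot d6 = d := hcyc
  have f1 : d1.fst = d.fst := P.rot_fst d
  have f2 : d2.fst = d.fst := (P.rot_fst d1).trans f1
  have f3 : d3.fst = d.fst := (P.rot_fst d2).trans f2
  have f4 : d4.fst = d.fst := (P.rot_fst d3).trans f3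
  have f5 : d5.fst = d.fst := (P.rot_fst d4).trans f4
  have f6 : d6.fst = d.fst := (P.rot_fst d5).trans f5
  have key := check7 (P.fv d) (P.fv d1) (P.fv d2) (P.fv d3) (P.fv d4) (P.fv d5) (P.fv d6)
    (P.T d) (P.T d1) (P.T d2) (P.T d3) (P.T d4) (P.T d5) (P.T d6)
  have e0 := pay_eq hP d6 (by rw [f6, h])
  have e1 := pay_eq hP d h
  have e2 := pay_eq hP d1 (by rw [f1, h])
  have e3 := pay_eq hP d2 (by rw [f2, h])
  have e4 := pay_eq hP d3 (by rw [f3, h])
  have e5 := pay_eq hP d4 (by rw [f4, h])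
  have e6 := pay_eq hP d5 (by rw [f5, h])
  have g0 := got_eq d6 (by rw [f6, h])
  have g1 := got_eq d h
  have g2 := got_eq d1 (by rw [f1, h])
  have g3 := got_eq d2 (by rw [f2, h])
  have g4 := got_eq d3 (by rw [f3, h])
  have g5 := got_eq d4 (by rw [f4, h])
  have g6 := got_eq d5 (by rw [f5, h])
  rw [hd0] at e0 g0
  rw [← hd1] at e0 e1 g1
  rw [← hd2] at e1 e2 g2
  rw [← hd3] at e2 e3 g3
  rw [← hd4] at e3 e4 g4
  rw [← hd5] at e4 e5 g5
  rw [← hd6] at e5 e6 g6
  rw [hd0] at e6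
  rw [← e0, ← e1, ← e2, ← e3, ← e4, ← e5, ← e6, ← g0, ← g1, ← g2, ← g3, ← g4, ← g5, ← g6] at key
  have key' := Nat.le_of_ble_eq_true key
  have z : ∀ e : P.G.Dart, e.fst = d.fst → P.pr2 e = 0 := fun e he =>
    pr2_of_ne (by rw [he, h]; norm_num)
  simp only [Finset.sum_range_succ, Finset.sum_range_zero, zero_add]
  show (-24 : ℚ) ≤ P.ch d + P.ch d1 + P.ch d2 + P.ch d3 + P.ch d4 + P.ch d5 + P.ch d6
  unfold ch
  rw [z d rfl, z d1 f1, z d2 f2, z d3 f3, z d4 f4, z d5 f5, z d6 f6]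
  have key2 : ((P.pr2 d.symm + P.pr2 d1.symm + P.pr2 d2.symm + P.pr2 d3.symm + P.pr2 d4.symm +
    P.pr2 d5.symm + P.pr2 d6.symm : ℕ) : ℚ) ≤ ((24 + (P.nt d + P.om2 d + (P.nt d1 + P.om2 d1) +
    (P.nt d2 + P.om2 d2) + (P.nt d3 + P.om2 d3) + (P.nt d4 + P.om2 d4) + (P.nt d5 + P.om2 d5) +
    (P.nt d6 + P.om2 d6)) : ℕ) : ℚ) := by exact_mod_cast key'
  push_cast at key2 ⊢
  linarith

/-- invariance of the sums at a vertex under rotation -/
lemma sum_rot (v : P.V) (F : P.G.Dart → ℚ) :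
    ∑ e ∈ univ.filter (fun e : P.G.Dart => e.fst = v), F (P.rot e) =
      ∑ e ∈ univ.filter (fun e : P.G.Dart => e.fst = v), F e := by
  refine Finset.sum_equiv P.rot ?_ ?_
  · intro i
    simp only [mem_filter, mem_univ, true_and, P.rot_fst]
  · intro i _; rfl

def b2q (b : Bool) : ℚ := if b = true then 1 else 0

lemma local8 (hP : P.MinDegFive) (v : P.V) (h : 8 ≤ P.deg v) :
    (144 - 24 * P.deg v : ℚ) ≤ ∑ e ∈ univ.filter (fun e : P.G.Dart => e.fst = v), P.ch e := by
  set S := univ.filter (fun e : P.G.Dart => e.fst = v) with hS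
  have hcard : (S.card : ℚ) = P.deg v := by rw [hS, P.card_darts_at]
  -- the price over `rot e`
  have hpr : ∀ e ∈ S, (P.pr2 (P.rot e).symm : ℚ) =
      6 * b2q (P.fv (P.rot e)) + 3 * b2q (P.fv (P.rot e) && !(P.T (P.rot e) && P.fv e)) +
      3 * b2q (P.fv (P.rot e) && !(P.T (P.rot (P.rot e)) && P.fv (P.rot (P.rot e)))) := by
    intro e he
    simp only [hS, mem_filter, mem_univ, true_and] at he
    have h' : 8 ≤ P.deg (P.rot e).fst := by rw [P.rot_fst, he]; exact h
    unfold pr2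
    have e1 : (P.rot e).symm.fst = (P.rot e).snd := rfl
    have e2 : P.c (P.rot e).symm = 3 := by
      show code (P.deg (P.rot e).fst) = 3
      unfold code; omega
    rw [e1, e2, Dart.symm_symm, side_rot, side_symm, fv_iff hP (P.rot e)]
    by_cases h5 : P.deg (P.rot e).snd = 5
    · rw [if_pos h5]
      simp only [h5, decide_true]
      unfold fv p2 b2q
      have q : ((3 : ℕ) == 2) = false := rfl
      have q' : ((3 : ℕ) == 3) = true := rfl
      rw [q, q']
      simp only [cond_false, cond_true]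
      cases P.T (P.rot e) <;> cases P.T (P.rot (P.rot e)) <;> cases (P.c e == 0) <;>
        cases (P.c (P.rot (P.rot e)) == 0) <;> norm_num
    · rw [if_neg h5]
      simp [h5, b2q]
  have h1 : ∑ e ∈ S, (P.pr2 e.symm : ℚ) = ∑ e ∈ S, (P.pr2 (P.rot e).symm : ℚ) :=
    (sum_rot v (fun e => (P.pr2 e.symm : ℚ))).symm
  have h2 : ∑ e ∈ S, 3 * b2q (P.fv (P.rot e) && !(P.T (P.rot (P.rot e)) &&
      P.fv (P.rot (P.rot e)))) = ∑ e ∈ S, 3 * b2q (P.fv e && !(P.T (P.rot e) &&
      P.fv (P.rot e))) :=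
    sum_rot v (fun e => 3 * b2q (P.fv e && !(P.T (P.rot e) && P.fv (P.rot e))))
  have h3 : ∑ e ∈ S, (6 * b2q (P.fv (P.rot e)) : ℚ) = ∑ e ∈ S, 6 * b2q (P.fv e) :=
    sum_rot v (fun e => 6 * b2q (P.fv e))
  have h3' : ∑ e ∈ S, (3 * (1 - b2q (P.fv (P.rot e))) : ℚ) = ∑ e ∈ S, 3 * (1 - b2q (P.fv e)) :=
    sum_rot v (fun e => 3 * (1 - b2q (P.fv e)))
  have h4 : ∑ e ∈ S, (P.nt (P.rot e) : ℚ) = ∑ e ∈ S, (P.nt e : ℚ) :=
    sum_rot v (fun e => (P.nt e : ℚ))
  have h5 : ∑ e ∈ S, (P.pr2 e.symm : ℚ) ≤ ∑ e ∈ S, ((P.nt e : ℚ) + 6) := by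
    rw [h1, Finset.sum_congr rfl hpr, Finset.sum_add_distrib, Finset.sum_add_distrib, h2, h3,
      Finset.sum_add_distrib, ← h4]
    have h6 : ∑ e ∈ S, (3 * b2q (P.fv (P.rot e) && !(P.T (P.rot e) && P.fv e)) +
        3 * b2q (P.fv e && !(P.T (P.rot e) && P.fv (P.rot e)))) ≤
        ∑ e ∈ S, (3 * (1 - b2q (P.fv (P.rot e))) + 3 * (1 - b2q (P.fv e)) +
          (P.nt (P.rot e) : ℚ)) := by
      refine Finset.sum_le_sum fun e _ => ?_
      unfold nt b2q
      cases P.T (P.rot e) <;> cases P.fv (P.rot e) <;> cases P.fv e <;> norm_num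
    rw [Finset.sum_add_distrib, Finset.sum_add_distrib, Finset.sum_add_distrib, h3'] at h6
    have h7 : ∑ e ∈ S, 6 * b2q (P.fv e) + (∑ e ∈ S, 3 * (1 - b2q (P.fv e)) +
        ∑ e ∈ S, 3 * (1 - b2q (P.fv e))) = ∑ e ∈ S, (6 : ℚ) := by
      rw [← Finset.sum_add_distrib, ← Finset.sum_add_distrib]
      refine Finset.sum_congr rfl fun e _ => ?_
      ring
    linarith
  have h6 : ∑ e ∈ S, (P.pr2 e : ℚ) = 0 := by
    refine Finset.sum_eq_zero fun e he => ?_
    simp only [hS, mem_filter, mem_univ, true_and] at he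
    rw [pr2_of_ne (by rw [he]; omega)]; simp
  have h7 : (0 : ℚ) ≤ ∑ e ∈ S, (P.om2 e : ℚ) := Finset.sum_nonneg fun e _ => by positivity
  unfold ch
  rw [Finset.sum_sub_distrib, Finset.sum_add_distrib, Finset.sum_add_distrib, h6]
  rw [Finset.sum_add_distrib, Finset.sum_const, nsmul_eq_mul, hcard] at h5
  have h8 : (8 : ℚ) ≤ P.deg v := by exact_mod_cast h
  linarith

lemma local_all (hP : P.MinDegFive) (v : P.V) :
    (144 - 24 * P.deg v : ℚ) ≤ ∑ e ∈ univ.filter (fun e : P.G.Dart => e.fst = v), P.ch e := by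
  obtain ⟨d, rfl⟩ := exists_dart hP v
  have h5 := hP d.fst
  rcases Nat.lt_or_ge (P.deg d.fst) 8 with h | h
  · have : P.deg d.fst = 5 ∨ P.deg d.fst = 6 ∨ P.deg d.fst = 7 := by omega
    rcases this with h | h | h
    · have := local5 d h
      rw [h]; push_cast; linarith
    · have := local6 d h
      rw [h]; push_cast; linarith
    · have := local7 hP d h
      rw [h]; push_cast; linarith
  · exact local8 hP d.fst h

end PlaneGraph

end Pool.J4.H52.LightFaces
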