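import Pool.Agent.J4.H52.LightFaces.Basic

/-! A plane triangulation with 114 vertices in which `(∗_c)` forces `c ≥ 5`.

The table lists, for every vertex, its neighbours in cyclic order.  The graph consists of two
copies of a cap glued along a 16-cycle; a cap has a centre of degree 8 whose neighbours have degree
5, surrounded by a cycle of eight vertices of degree 7, and so on. -/

namespace Pool.J4.H52.LightFaces

open Function Finset SimpleGraph

/-- The table of the cyclically ordered neighbourhoods. -/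
def tbl : List (List ℕ) := [
  [1, 2, 3, 4, 5, 6, 7, 8],
  [0, 8, 9, 10, 2],
  [0, 1, 10, 11, 3],
  [0, 2, 11, 12, 4],
  [0, 3, 12, 13, 5],
  [0, 4, 13, 14, 6],
  [0, 5, 14, 15, 7],
  [0, 6, 15, 16, 8],
  [0, 7, 16, 9, 1],
  [8, 16, 17, 18, 19, 10, 1],
  [1, 9, 19, 20, 21, 11, 2],
  [2, 10, 21, 22, 23, 12, 3],
  [3, 11, 23, 24, 25, 13, 4],
  [4, 12, 25, 26, 27, 14, 5],
  [5, 13, 27, 28, 29, 15, 6],
  [6, 14, 29, 30, 31, 16, 7],
  [7, 15, 31, 32, 17, 9, 8],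
  [16, 32, 33, 18, 9],
  [9, 17, 33, 34, 35, 19],
  [9, 18, 35, 20, 10],
  [10, 19, 35, 36, 37, 21],
  [10, 20, 37, 22, 11],
  [11, 21, 37, 38, 39, 23],
  [11, 22, 39, 24, 12],
  [12, 23, 39, 40, 41, 25],
  [12, 24, 41, 26, 13],
  [13, 25, 41, 42, 43, 27],
  [13, 26, 43, 28, 14],
  [14, 27, 43, 44, 45, 29],
  [14, 28, 45, 30, 15],
  [15, 29, 45, 46, 47, 31],
  [15, 30, 47, 32, 16],
  [16, 31, 47, 48, 33, 17],
  [17, 32, 48, 49, 50, 34, 18],
  [18, 33, 50, 51, 35],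
  [19, 18, 34, 51, 52, 36, 20],
  [20, 35, 52, 53, 37],
  [21, 20, 36, 53, 54, 38, 22],
  [22, 37, 54, 55, 39],
  [23, 22, 38, 55, 56, 40, 24],
  [24, 39, 56, 57, 41],
  [25, 24, 40, 57, 58, 42, 26],
  [26, 41, 58, 59, 43],
  [27, 26, 42, 59, 60, 44, 28],
  [28, 43, 60, 61, 45],
  [29, 28, 44, 61, 62, 46, 30],
  [30, 45, 62, 63, 47],
  [31, 30, 46, 63, 64, 48, 32],
  [32, 47, 64, 49, 33],
  [33, 48, 64, 65, 66, 50],
  [33, 49, 66, 67, 51, 34],
  [35, 34, 50, 67, 68, 52],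
  [35, 51, 68, 69, 53, 36],
  [37, 36, 52, 69, 70, 54],
  [37, 53, 70, 71, 55, 38],
  [39, 38, 54, 71, 72, 56],
  [39, 55, 72, 73, 57, 40],
  [41, 40, 56, 73, 74, 58],
  [41, 57, 74, 75, 59, 42],
  [43, 42, 58, 75, 76, 60],
  [43, 59, 76, 77, 61, 44],
  [45, 44, 60, 77, 78, 62],
  [45, 61, 78, 79, 63, 46],
  [47, 46, 62, 79, 80, 64],
  [47, 63, 80, 65, 49, 48],
  [66, 49, 64, 80, 81],
  [82, 67, 50, 49, 65, 81, 83],
  [68, 51, 50, 66, 82],
  [84, 69, 52, 51, 67, 82, 85],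
  [70, 53, 52, 68, 84],
  [86, 71, 54, 53, 69, 84, 87],
  [72, 55, 54, 70, 86],
  [88, 73, 56, 55, 71, 86, 89],
  [74, 57, 56, 72, 88],
  [90, 75, 58, 57, 73, 88, 91],
  [76, 59, 58, 74, 90],
  [92, 77, 60, 59, 75, 90, 93],
  [78, 61, 60, 76, 92],
  [94, 79, 62, 61, 77, 92, 95],
  [80, 63, 62, 78, 94],
  [81, 65, 64, 63, 79, 94, 96],
  [83, 66, 65, 80, 96, 97],
  [85, 68, 67, 66, 83, 98],
  [98, 82, 66, 81, 97],
  [87, 70, 69, 68, 85, 99],
  [99, 84, 68, 82, 98],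
  [89, 72, 71, 70, 87, 100],
  [100, 86, 70, 84, 99],
  [91, 74, 73, 72, 89, 101],
  [101, 88, 72, 86, 100],
  [93, 76, 75, 74, 91, 102],
  [102, 90, 74, 88, 101],
  [95, 78, 77, 76, 93, 103],
  [103, 92, 76, 90, 102],
  [96, 80, 79, 78, 95, 104],
  [104, 94, 78, 92, 103],
  [97, 81, 80, 94, 104],
  [105, 98, 83, 81, 96, 104, 106],
  [107, 99, 85, 82, 83, 97, 105],
  [108, 100, 87, 84, 85, 98, 107],
  [109, 101, 89, 86, 87, 99, 108],
  [110, 102, 91, 88, 89, 100, 109],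
  [111, 103, 93, 90, 91, 101, 110],
  [112, 104, 95, 92, 93, 102, 111],
  [106, 97, 96, 94, 95, 103, 112],
  [107, 98, 97, 106, 113],
  [105, 97, 104, 112, 113],
  [108, 99, 98, 105, 113],
  [109, 100, 99, 107, 113],
  [110, 101, 100, 108, 113],
  [111, 102, 101, 109, 113],
  [112, 103, 102, 110, 113],
  [106, 104, 103, 111, 113],
  [105, 106, 112, 111, 110, 109, 108, 107]
  ]

/-- The neighbours of `a` in cyclic order. -/
def nb (a : Fin 114) : List (Fin 114) :=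
  (tbl.getD a.val []).map (fun i => (⟨i % 114, Nat.mod_lt _ (by norm_num)⟩ : Fin 114))

/-- The neighbour of `b` following `a`. -/
def nx (b a : Fin 114) : Fin 114 := (nb b).formPerm a

theorem nb_nodup : ∀ a, (nb a).Nodup := by decide +kernel

theorem nb_len : ∀ a, 5 ≤ (nb a).length := by decide +kernel

theorem nb_symm : ∀ a, ∀ b ∈ nb a, a ∈ nb b := by decide +kernel

theorem nb_irrefl : ∀ a, a ∉ nb a := by decide +kernel

theorem nb_tri : ∀ a, ∀ b ∈ nb a, nx (nx b a) b = a := by decide +kernel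

theorem nb_conn : ∀ a : Fin 114, a.val ≠ 0 → ∃ b ∈ nb a, b.val < a.val := by decide +kernel

theorem nb_sum : ∑ a, (nb a).length = 672 := by decide +kernel

theorem nb_light : ∀ a, ∀ b ∈ nb a,
    (17 ≤ (nb a).length + (nb b).length + (nb (nx b a)).length) := by decide +kernel

/-- darts (7; 5, 5) -/
def L7 : List (ℕ × ℕ) := [(9, 8), (10, 1), (11, 2), (12, 3), (13, 4), (14, 5), (15, 6), (16, 7), (97, 105), (98, 107), (99, 108), (100, 109), (101, 110), (102, 111), (103, 112), (104, 106)]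

/-- darts (5; 6, 6) -/
def L5 : List (ℕ × ℕ) := [(34, 51), (36, 53), (38, 55), (40, 57), (42, 59), (44, 61), (46, 63), (48, 49), (65, 64), (67, 50), (69, 52), (71, 54), (73, 56), (75, 58), (77, 60), (79, 62)]

theorem nb_L7 : ∀ a, ∀ b ∈ nb a, (nb a).length = 7 → (nb b).length = 5 →
    (nb (nx b a)).length = 5 → (a.val, b.val) ∈ L7 := by decide +kernel

theorem nb_L5 : ∀ a, ∀ b ∈ nb a, (nb a).length = 5 → (nb b).length = 6 →
    (nb (nx b a)).length = 6 → (a.val, b.val) ∈ L5 := by decide +kernel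

end Pool.J4.H52.LightFaces
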