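import Pool.Agent.J4.H52.LightFaces.Local

/-! Borodin's inequality `(∗_5)`. -/

namespace Pool.J4.H52.LightFaces

open Function Finset SimpleGraph

namespace PlaneGraph

variable {P : PlaneGraph}

lemma nt_len (hP : P.MinDegFive) (d : P.G.Dart) :
    (144 : ℚ) / P.len d ≤ 48 - P.nt d := by
  unfold nt
  by_cases hT : P.Tr d
  · have h1 : P.T d = true := by unfold T; simp [hT]
    rw [h1, (len_eq_three_iff hP d).mpr hT]; norm_num
  · have h1 : P.T d = false := by unfold T; simp [hT]
    have h3 := three_le_len hP d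
    have h4 : P.len d ≠ 3 := fun h => hT ((len_eq_three_iff hP d).mp h)
    have h5 : (4 : ℚ) ≤ P.len d := by
      have : 4 ≤ P.len d := by omega
      exact_mod_cast this
    rw [h1]
    have : (144 : ℚ) / P.len d ≤ 36 := by
      rw [div_le_iff₀ (by linarith)]; linarith
    simp only [cond_false]
    push_cast
    linarith

lemma sum_om2_ge (hP : P.MinDegFive) :
    (288 : ℚ) * Nat.card P.G.ConnectedComponent ≤ ∑ d : P.G.Dart, (P.om2 d : ℚ) := by
  have h1 := euler_darts hP
  have h2 : ∑ d : P.G.Dart, ((144 : ℚ) / P.deg d.fst - 24) ≤ ∑ d : P.G.Dart, P.ch d := by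
    rw [← Finset.sum_fiberwise (s := univ) (g := fun d : P.G.Dart => d.fst) (f := P.ch),
      ← Finset.sum_fiberwise (s := univ) (g := fun d : P.G.Dart => d.fst)]
    refine Finset.sum_le_sum fun v _ => ?_
    refine le_trans (le_of_eq ?_) (local_all hP v)
    rw [Finset.sum_congr rfl (g := fun _ => (144 : ℚ) / P.deg v - 24)]
    · rw [Finset.sum_const, card_darts_at, nsmul_eq_mul]
      have := hP v
      have h' : (P.deg v : ℚ) ≠ 0 := by
        have : 0 < P.deg v := by omega
        positivity
      field_simp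
    · intro d hd
      simp only [mem_filter, mem_univ, true_and] at hd
      rw [hd]
  have h3 : ∑ d : P.G.Dart, P.ch d = ∑ d : P.G.Dart, (P.nt d : ℚ) + ∑ d : P.G.Dart, (P.om2 d : ℚ) := by
    unfold ch
    rw [Finset.sum_sub_distrib, Finset.sum_add_distrib, Finset.sum_add_distrib]
    have : ∑ d : P.G.Dart, (P.pr2 d.symm : ℚ) = ∑ d : P.G.Dart, (P.pr2 d : ℚ) :=
      Equiv.sum_comp (Dart.symm_involutive (G := P.G)).toPerm (fun d => (P.pr2 d : ℚ))
    rw [this]; ring
  have h4 : ∑ d : P.G.Dart, (144 : ℚ) / P.len d ≤ ∑ d : P.G.Dart, (48 - (P.nt d : ℚ)) :=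
    Finset.sum_le_sum fun d _ => nt_len hP d
  have h5 : (288 : ℚ) * Nat.card P.G.ConnectedComponent =
      ∑ d : P.G.Dart, ((144 : ℚ) / P.deg d.fst - 24) - ∑ d : P.G.Dart, (48 : ℚ) +
        ∑ d : P.G.Dart, (144 : ℚ) / P.len d := by
    have : (288 : ℚ) * Nat.card P.G.ConnectedComponent =
      2 * ((144 : ℚ) * Nat.card P.G.ConnectedComponent) := by ring
    rw [this, h1, Finset.mul_sum, ← Finset.sum_sub_distrib, ← Finset.sum_add_distrib]
    refine Finset.sum_congr rfl fun d _ => ?_
    ring
  rw [Finset.sum_sub_distrib] at h4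
  linarith

/-- doubled weight of a dart in a triangular face with vertices of degrees `a` (initial vertex),
`b`, `c` -/
def W (a b c : ℕ) : ℕ :=
  if a = 5 then w2 (code b) (code c)
  else if a = 7 then (bif (code b == 0) && (code c == 0) then 10 else 0) else 0

lemma om2_of_tr (d : P.G.Dart) (h : P.Tr d) :
    P.om2 d = W (P.deg d.fst) (P.deg d.snd) (P.deg (P.third d)) := by
  unfold om2 W
  have h1 : P.T d = true := by unfold T; simp [h]
  rw [h1]; rfl

lemma om2_of_not_tr (d : P.G.Dart) (h : ¬ P.Tr d) : P.om2 d = 0 := by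
  unfold om2
  have h1 : P.T d = false := by unfold T; simp [h]
  rw [h1]; rfl

lemma w2_le (b c : ℕ) : w2 b c ≤ 12 := by
  unfold w2
  cases (b == 0) <;> cases (c == 0) <;> cases (b == 1) <;> cases (c == 1) <;> simp

lemma W_le (a b c : ℕ) : W a b c ≤ 12 := by
  unfold W
  split_ifs
  · exact w2_le _ _
  · cases (code b == 0) <;> cases (code c == 0) <;> simp
  · exact Nat.zero_le _

lemma om2_le (hP : P.MinDegFive) (d : P.G.Dart) : (P.om2 d : ℚ) ≤ 36 * (1 / P.len d) := by
  by_cases h : P.Tr d
  · rw [om2_of_tr d h, (len_eq_three_iff hP d).mpr h]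
    have := W_le (P.deg d.fst) (P.deg d.snd) (P.deg (P.third d))
    have h' : (W (P.deg d.fst) (P.deg d.snd) (P.deg (P.third d)) : ℚ) ≤ 12 := by exact_mod_cast this
    push_cast
    linarith
  · rw [om2_of_not_tr d h]
    have : (0 : ℚ) < P.len d := by exact_mod_cast len_pos d
    push_cast
    positivity

/-- indicator -/
noncomputable def ind (p : Prop) : ℚ := by classical exact if p then 1 else 0

lemma ind_nonneg (p : Prop) : 0 ≤ ind p := by
  unfold ind; split_ifs <;> norm_num

lemma ind_true {p : Prop} (h : p) : ind p = 1 := by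
  unfold ind; rw [if_pos h]

/-- doubled weight of a face -/
noncomputable def wx (P : PlaneGraph) (x : P.Face) : ℚ :=
  36 * ind (P.IsTri x 5 5 5) + 18 * ind (P.IsTri x 5 5 6) + 10 * ind (P.IsTri x 5 5 7) +
    8 * ind (P.IsTri x 5 6 6)

lemma wx_nonneg (x : P.Face) : 0 ≤ P.wx x := by
  unfold wx
  have h1 := ind_nonneg (P.IsTri x 5 5 5)
  have h2 := ind_nonneg (P.IsTri x 5 5 6)
  have h3 := ind_nonneg (P.IsTri x 5 5 7)
  have h4 := ind_nonneg (P.IsTri x 5 6 6)
  positivity

lemma code_ge {n : ℕ} (h : 8 ≤ n) : code n = 3 := by unfold code; omega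

lemma W_cases (a b c : ℕ) (ha : 5 ≤ a) (hb : 5 ≤ b) (hc : 5 ≤ c) :
    W a b c + W b c a + W c a b = 0 ∨
    (({a, b, c} : Multiset ℕ) = {5, 5, 5} ∧ W a b c + W b c a + W c a b = 36) ∨
    (({a, b, c} : Multiset ℕ) = {5, 5, 6} ∧ W a b c + W b c a + W c a b = 18) ∨
    (({a, b, c} : Multiset ℕ) = {5, 5, 7} ∧ W a b c + W b c a + W c a b = 10) ∨
    (({a, b, c} : Multiset ℕ) = {5, 6, 6} ∧ W a b c + W b c a + W c a b = 8) := by
  have key : ∀ n, 5 ≤ n → n = 5 ∨ n = 6 ∨ n = 7 ∨ 8 ≤ n := fun n hn => by omega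
  have c5 : code 5 = 0 := rfl
  have c6 : code 6 = 1 := rfl
  have c7 : code 7 = 2 := rfl
  rcases key a ha with rfl | rfl | rfl | ha'
  all_goals rcases key b hb with rfl | rfl | rfl | hb'
  all_goals rcases key c hc with rfl | rfl | rfl | hc'
  all_goals first
    | decide
    | (left
       have d8 : ∀ n, 8 ≤ n → n ≠ 5 ∧ n ≠ 7 := fun n hn => by omega
       unfold W w2
       simp_all [code_ge])

/-- The doubled weights in a face with exactly one boundary walk. -/
lemma face_one (hP : P.MinDegFive) (d : P.G.Dart)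
    (hx : ∀ e, P.face e = P.face d → P.bd.SameCycle d e) :
    ∑ e ∈ univ.filter (fun e => P.face e = P.face d), (P.om2 e : ℚ) ≤
      P.wx (P.face d) ∧
    ∑ e ∈ univ.filter (fun e => P.face e = P.face d), (1 : ℚ) / P.len e = 1 := by
  have hface : ∀ n : ℕ, P.face (P.bd^[n] d) = P.face d := by
    intro n
    induction n with
    | zero => rfl
    | succ n ih =>
      rw [iterate_succ_apply']
      exact (P.face_bd _).trans ih
  have hS : ∀ y, y ∈ univ.filter (fun e => P.face e = P.face d) ↔ P.bd.SameCycle d y := by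
    intro y
    simp only [mem_filter, mem_univ, true_and]
    constructor
    · exact hx y
    · intro h
      obtain ⟨i, _, hi⟩ := (sameCycle_iff_iterate P.bd d y).mp h
      rw [← hi, hface]
  have hlen : ∀ i, P.len (P.bd^[i] d) = P.len d := by
    intro i
    unfold len
    apply minimalPeriod_eq_of_sameCycle
    exact ⟨i, by rw [Equiv.Perm.iterate_eq_pow]; rfl⟩
  rw [sum_cycle P.bd d _ hS, sum_cycle P.bd d _ hS]
  change ∑ i ∈ range (P.len d), _ ≤ _ ∧ ∑ i ∈ range (P.len d), _ = _
  constructor
  · by_cases hT : P.Tr d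
    · rw [(len_eq_three_iff hP d).mpr hT]
      simp only [Finset.sum_range_succ, Finset.sum_range_zero, zero_add]
      change (P.om2 d : ℚ) + P.om2 (P.bd d) + P.om2 (P.bd (P.bd d)) ≤ _
      have hT1 : P.Tr (P.bd d) := (tr_bd_iff d).mpr hT
      have hT2 : P.Tr (P.bd (P.bd d)) := (tr_bd_iff _).mpr hT1
      rw [om2_of_tr _ hT, om2_of_tr _ hT1, om2_of_tr _ hT2]
      have a1 : (P.bd d).fst = d.snd := P.bd_fst d
      have a2 : (P.bd d).snd = P.third d := rfl
      have a3 : P.third (P.bd d) = d.fst := bd_bd_snd d hT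
      have a4 : (P.bd (P.bd d)).fst = P.third d := P.bd_fst _
      have a5 : (P.bd (P.bd d)).snd = d.fst := bd_bd_snd d hT
      have a6 : P.third (P.bd (P.bd d)) = d.snd := by
        unfold third
        have : P.bd (P.bd (P.bd d)) = d := hT
        rw [this]
      have htri : ∀ i j k, ({P.deg d.fst, P.deg d.snd, P.deg (P.third d)} : Multiset ℕ) =
          {i, j, k} → P.IsTri (P.face d) i j k := by
        intro i j k h
        refine ⟨d, hT, ?_, ?_⟩
        · intro e
          constructor
          · intro he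
            obtain ⟨m, hm, hm'⟩ := (sameCycle_iff_iterate P.bd d e).mp (hx e he)
            have : minimalPeriod P.bd d = 3 := (len_eq_three_iff hP d).mpr hT
            rw [this] at hm
            interval_cases m
            · left; exact hm'.symm
            · right; left; exact hm'.symm
            · right; right; exact hm'.symm
          · rintro (rfl | rfl | rfl)
            · rfl
            · exact hface 1
            · exact hface 2
        · rw [a1, a4]; exact h
      rw [a1, a2, a3, a4, a5, a6]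
      have key := W_cases (P.deg d.fst) (P.deg d.snd) (P.deg (P.third d)) (hP _) (hP _) (hP _)
      have n1 := ind_nonneg (P.IsTri (P.face d) 5 5 5)
      have n2 := ind_nonneg (P.IsTri (P.face d) 5 5 6)
      have n3 := ind_nonneg (P.IsTri (P.face d) 5 5 7)
      have n4 := ind_nonneg (P.IsTri (P.face d) 5 6 6)
      have cast : ∀ n : ℕ, W (P.deg d.fst) (P.deg d.snd) (P.deg (P.third d)) +
          W (P.deg d.snd) (P.deg (P.third d)) (P.deg d.fst) +
          W (P.deg (P.third d)) (P.deg d.fst) (P.deg d.snd) = n →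
          (W (P.deg d.fst) (P.deg d.snd) (P.deg (P.third d)) : ℚ) +
          W (P.deg d.snd) (P.deg (P.third d)) (P.deg d.fst) +
          W (P.deg (P.third d)) (P.deg d.fst) (P.deg d.snd) = n := by
        intro n h; exact_mod_cast h
      rcases key with h | ⟨h, h'⟩ | ⟨h, h'⟩ | ⟨h, h'⟩ | ⟨h, h'⟩
      · rw [cast _ h]; exact_mod_cast wx_nonneg (P.face d)
      · rw [cast _ h']; unfold wx
        rw [ind_true (htri _ _ _ h)]; push_cast; linarith
      · rw [cast _ h']; unfold wx
        rw [ind_true (htri _ _ _ h)]; push_cast; linarith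
      · rw [cast _ h']; unfold wx
        rw [ind_true (htri _ _ _ h)]; push_cast; linarith
      · rw [cast _ h']; unfold wx
        rw [ind_true (htri _ _ _ h)]; push_cast; linarith
    · have hnt : ∀ i, ¬ P.Tr (P.bd^[i] d) := by
        intro i
        induction i with
        | zero => exact hT
        | succ i ih => rw [iterate_succ_apply', tr_bd_iff]; exact ih
      rw [Finset.sum_eq_zero fun i _ => by rw [om2_of_not_tr _ (hnt i)]; simp]
      exact wx_nonneg _
  · rw [Finset.sum_congr rfl fun i _ => by rw [hlen i], Finset.sum_const, card_range, nsmul_eq_mul]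
    have : (P.len d : ℚ) ≠ 0 := by
      have := len_pos d
      positivity
    field_simp

/-- A face with at least two boundary walks. -/
lemma face_two (hP : P.MinDegFive) (d e : P.G.Dart) (he : P.face e = P.face d)
    (hde : ¬ P.bd.SameCycle d e) :
    (2 : ℚ) ≤ ∑ e ∈ univ.filter (fun e => P.face e = P.face d), (1 : ℚ) / P.len e := by
  classical
  have hface : ∀ (n : ℕ) (d : P.G.Dart), P.face (P.bd^[n] d) = P.face d := by
    intro n d
    induction n with
    | zero => rfl
    | succ n ih =>
      rw [iterate_succ_apply']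
      exact (P.face_bd _).trans ih
  have hcyc : ∀ d : P.G.Dart, ∑ y ∈ univ.filter (fun y => P.bd.SameCycle d y),
      (1 : ℚ) / P.len y = 1 := by
    intro d
    rw [sum_cycle P.bd d _ (by simp)]
    change ∑ i ∈ range (P.len d), _ = _
    rw [Finset.sum_congr rfl (g := fun _ => (1 : ℚ) / P.len d), Finset.sum_const, card_range,
      nsmul_eq_mul]
    · have : (P.len d : ℚ) ≠ 0 := by
        have := len_pos d
        positivity
      field_simp
    · intro i _
      have : P.len (P.bd^[i] d) = P.len d := by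
        unfold len
        apply minimalPeriod_eq_of_sameCycle
        exact ⟨i, by rw [Equiv.Perm.iterate_eq_pow]; rfl⟩
      rw [this]
  have hsub : (univ.filter (fun y => P.bd.SameCycle d y)) ∪
      (univ.filter (fun y => P.bd.SameCycle e y)) ⊆ univ.filter (fun y => P.face y = P.face d) := by
    intro y hy
    simp only [mem_union, mem_filter, mem_univ, true_and] at hy ⊢
    rcases hy with h | h
    · obtain ⟨i, _, hi⟩ := (sameCycle_iff_iterate P.bd d y).mp h
      rw [← hi, hface]
    · obtain ⟨i, _, hi⟩ := (sameCycle_iff_iterate P.bd e y).mp h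
      rw [← hi, hface, he]
  have hdisj : Disjoint (univ.filter (fun y => P.bd.SameCycle d y))
      (univ.filter (fun y => P.bd.SameCycle e y)) := by
    rw [Finset.disjoint_left]
    intro y h1 h2
    simp only [mem_filter, mem_univ, true_and] at h1 h2
    exact hde (h1.trans h2.symm)
  have hle := Finset.sum_le_sum_of_subset_of_nonneg (f := fun y => (1 : ℚ) / P.len y) hsub
    (fun y _ _ => by positivity)
  rw [Finset.sum_union hdisj, hcyc, hcyc] at hle
  linarith

lemma face_bound (hP : P.MinDegFive) (x : P.Face) :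
    ∑ e ∈ univ.filter (fun e => P.face e = x), (P.om2 e : ℚ) ≤
      P.wx x + 72 * (∑ e ∈ univ.filter (fun e => P.face e = x), (1 : ℚ) / P.len e - 1) := by
  obtain ⟨d, rfl⟩ := P.face_surjective x
  by_cases h : ∀ e, P.face e = P.face d → P.bd.SameCycle d e
  · obtain ⟨h1, h2⟩ := face_one hP d h
    rw [h2]; linarith
  · push Not at h
    obtain ⟨e, he, hde⟩ := h
    have h2 := face_two hP d e he hde
    have h3 : ∑ e ∈ univ.filter (fun e => P.face e = P.face d), (P.om2 e : ℚ) ≤
        36 * ∑ e ∈ univ.filter (fun e => P.face e = P.face d), (1 : ℚ) / P.len e := by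
      rw [Finset.mul_sum]
      exact Finset.sum_le_sum fun e _ => om2_le hP e
    have h4 := wx_nonneg (P.face d)
    linarith

lemma f_eq (i j k : ℕ) : (P.f i j k : ℚ) = ∑ x : P.Face, ind (P.IsTri x i j k) := by
  classical
  unfold f ind
  rw [Nat.card_eq_fintype_card, Fintype.card_subtype, Finset.card_filter, Nat.cast_sum]
  refine Finset.sum_congr rfl fun x _ => ?_
  split_ifs <;> simp

lemma sum_wx : ∑ x : P.Face, P.wx x =
    36 * (P.f 5 5 5 : ℚ) + 18 * P.f 5 5 6 + 10 * P.f 5 5 7 + 8 * P.f 5 6 6 := by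
  unfold wx
  rw [f_eq, f_eq, f_eq, f_eq, Finset.sum_add_distrib, Finset.sum_add_distrib,
    Finset.sum_add_distrib, Finset.mul_sum, Finset.mul_sum, Finset.mul_sum, Finset.mul_sum]

/-- Borodin's inequality. -/
theorem star_five (hP : P.MinDegFive) : P.Star 5 := by
  have h1 := sum_om2_ge hP
  have h2 : ∑ d : P.G.Dart, (P.om2 d : ℚ) ≤ ∑ x : P.Face, (P.wx x +
      72 * (∑ e ∈ univ.filter (fun e => P.face e = x), (1 : ℚ) / P.len e - 1)) := by
    rw [← Finset.sum_fiberwise (s := univ) (g := P.face)]
    exact Finset.sum_le_sum fun x _ => face_bound hP x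
  have h3 : ∑ x : P.Face, (∑ e ∈ univ.filter (fun e => P.face e = x), (1 : ℚ) / P.len e - 1) =
      numCycles (bdPerm P.rot) - Nat.card P.Face := by
    rw [Finset.sum_sub_distrib, Finset.sum_fiberwise (s := univ) (g := P.face)]
    rw [numCycles_eq_sum, Nat.card_eq_fintype_card]
    simp only [Finset.sum_const, card_univ, nsmul_eq_mul, mul_one]
    rfl
  rw [Finset.sum_add_distrib, ← Finset.mul_sum, h3, sum_wx] at h2
  have e1 : (Nat.card P.V : ℚ) + numCycles (bdPerm P.rot) =
      P.G.edgeSet.ncard + 2 * Nat.card P.G.ConnectedComponent := by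
    exact_mod_cast P.euler_components
  have e2 : (Nat.card P.V : ℚ) + Nat.card P.Face =
      P.G.edgeSet.ncard + 1 + Nat.card P.G.ConnectedComponent := by
    exact_mod_cast P.euler
  have e3 : (1 : ℚ) ≤ Nat.card P.G.ConnectedComponent := by
    have : 0 < Nat.card P.G.ConnectedComponent := by
      rw [Nat.card_pos_iff]
      refine ⟨⟨P.G.connectedComponentMk (Classical.arbitrary P.V)⟩, inferInstance⟩
    exact_mod_cast this
  have h4 : (144 : ℚ) ≤ 18 * (P.f 5 5 5 : ℚ) + 9 * P.f 5 5 6 + 5 * P.f 5 5 7 + 4 * P.f 5 6 6 := by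
    linarith
  unfold Star
  exact_mod_cast h4

end PlaneGraph

end Pool.J4.H52.LightFaces
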